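import Mathlib
import Pool.Agent.K3h88.Erde.Stm2

/-!
# Counting, exchange and the paths (brick PATHS)
-/

set_option autoImplicit false

open Pool.Agent.K3h88.Erde

namespace Pool.Agent.K3h4.Erde

lemma add_self2 {a : ℕ} (x : Fin a → ZMod 2) : x + x = 0 := by
  funext i
  exact CharTwo.add_self_eq_zero (x i)

lemma ev_eq (m L : ℕ) (i : Fin m) : ev m L i = Pi.single i (1 : ZMod L) := by
  classical
  funext j
  unfold ev
  by_cases h : j = i
  · rw [h, Pi.single_eq_same, if_pos rfl]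
  · rw [Pi.single_eq_of_ne h, if_neg]
    intro h'
    exact h (Fin.ext h')

lemma ev_self (m L l : ℕ) (hl : l < m) : ev m L l ⟨l, hl⟩ = 1 := by
  unfold ev
  rw [if_pos rfl]

lemma ev_other (m L l l' : ℕ) (hl : l < m) (h : l ≠ l') : ev m L l' ⟨l, hl⟩ = 0 := by
  unfold ev
  rw [if_neg h]

lemma nat_ne {L : ℕ} (hL : 4 ≤ L) (i j : ℕ) (hi : i < 4) (hj : j < 4) (hij : i ≠ j) :
    ((i : ℕ) : ZMod L) ≠ ((j : ℕ) : ZMod L) := by
  intro h
  have h1 := (ZMod.natCast_eq_natCast_iff' i j L).1 h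
  rw [Nat.mod_eq_of_lt (by omega), Nat.mod_eq_of_lt (by omega)] at h1
  exact hij h1

lemma two_ne {L : ℕ} (hL : 4 ≤ L) : (2 : ZMod L) ≠ 0 ∧ (2 : ZMod L) ≠ 1 ∧ (1 : ZMod L) ≠ 0 := by
  have h1 := nat_ne hL 2 0 (by norm_num) (by norm_num) (by norm_num)
  have h2 := nat_ne hL 2 1 (by norm_num) (by norm_num) (by norm_num)
  have h3 := nat_ne hL 1 0 (by norm_num) (by norm_num) (by norm_num)
  refine ⟨?_, ?_, ?_⟩
  · exact_mod_cast h1
  · exact_mod_cast h2
  · exact_mod_cast h3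

section

variable {m a : ℕ} (G : GD m a) (L : ℕ)

lemma gr_adj (s : ℕ) (α : Fin a → ZMod 2) (y z : Fin m → ZMod L) :
    (G.gr L s α).Adj y z ↔ y ≠ z ∧ ((∃ l, l < m ∧ z = y + ev m L l ∧ G.T L s y l = α) ∨
      (∃ l, l < m ∧ y = z + ev m L l ∧ G.T L s z l = α)) := by
  unfold GD.gr
  rw [SimpleGraph.fromRel_adj]

lemma adj_of (hL : 4 ≤ L) (s : ℕ) (y : Fin m → ZMod L) (l : ℕ) (hl : l < m) :
    (G.gr L s (G.T L s y l)).Adj y (y + ev m L l) := by
  rw [gr_adj]
  refine ⟨?_, Or.inl ⟨l, hl, rfl, rfl⟩⟩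
  intro h
  have h1 := congrFun h ⟨l, hl⟩
  rw [Pi.add_apply, ev_self] at h1
  exact (two_ne hL).2.2 (by linear_combination -h1)

lemma color_unique (hL : 4 ≤ L) (s : ℕ) (α β : Fin a → ZMod 2) (y z : Fin m → ZMod L)
    (h1 : (G.gr L s α).Adj y z) (h2 : (G.gr L s β).Adj y z) : α = β := by
  have key : ∀ (y z : Fin m → ZMod L) (l l' : ℕ), l < m → l' < m → z = y + ev m L l →
      z = y + ev m L l' → l = l' := by
    intro y z l l' hl hl' h h'
    by_contra hne
    have h3 := congrFun (h.symm.trans h') ⟨l, hl⟩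
    rw [Pi.add_apply, Pi.add_apply, ev_self, ev_other m L l l' hl hne] at h3
    exact (two_ne hL).2.2 (by linear_combination h3)
  have key2 : ∀ (y z : Fin m → ZMod L) (l l' : ℕ), l < m → l' < m → z = y + ev m L l →
      y = z + ev m L l' → False := by
    intro y z l l' hl hl' h h'
    have h3 := congrFun h' ⟨l, hl⟩
    rw [h, Pi.add_apply, Pi.add_apply, ev_self] at h3
    by_cases hne : l = l'
    · subst hne
      rw [ev_self] at h3
      exact (two_ne hL).1 (by linear_combination -h3)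
    · rw [ev_other m L l l' hl hne] at h3
      exact (two_ne hL).2.2 (by linear_combination -h3)
  rw [gr_adj] at h1 h2
  rcases h1.2 with ⟨l, hl, hz, hT⟩ | ⟨l, hl, hz, hT⟩ <;>
    rcases h2.2 with ⟨l', hl', hz', hT'⟩ | ⟨l', hl', hz', hT'⟩
  · rw [key y z l l' hl hl' hz hz'] at hT
    rw [← hT, ← hT']
  · exact (key2 y z l l' hl hl' hz hz').elim
  · exact (key2 y z l' l hl' hl hz' hz).elim
  · rw [key z y l l' hl hl' hz hz'] at hT
    rw [← hT, ← hT']

lemma edge_disjoint (hL : 4 ≤ L) (s : ℕ) (α β : Fin a → ZMod 2) (hαβ : α ≠ β) :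
    Disjoint (G.gr L s α).edgeSet (G.gr L s β).edgeSet := by
  rw [Set.disjoint_left]
  intro e h1 h2
  induction e using Sym2.ind with
  | _ y z =>
    rw [SimpleGraph.mem_edgeSet] at h1 h2
    exact hαβ (color_unique G L hL s α β y z h1 h2)

lemma torE_eq (hL : 4 ≤ L) (s : ℕ) : torE m L = ⋃ α : Fin a → ZMod 2, (G.gr L s α).edgeSet := by
  ext e
  rw [Set.mem_iUnion]
  constructor
  · rintro ⟨y, i, rfl⟩
    refine ⟨G.T L s y i, ?_⟩
    rw [SimpleGraph.mem_edgeSet, ← ev_eq]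
    exact adj_of G L hL s y i i.2
  · rintro ⟨α, h⟩
    induction e using Sym2.ind with
    | _ y z =>
      rw [SimpleGraph.mem_edgeSet, gr_adj] at h
      rcases h.2 with ⟨l, hl, hz, -⟩ | ⟨l, hl, hz, -⟩
      · exact ⟨y, ⟨l, hl⟩, by rw [hz, ← ev_eq]⟩
      · refine ⟨z, ⟨l, hl⟩, ?_⟩
        rw [hz, ← ev_eq, Sym2.eq_swap]

/-- the number of the vertices met by a colour -/
lemma ncard_cov (t : ℕ) (hL : L = 4 ^ t) (hA : AlgProps G L) (α : Fin a → ZMod 2) :
    {z | G.Cov L α z}.ncard = m * 2 ^ (2 * m * t - a) := by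
  classical
  have hne : NeZero L := ⟨by rw [hL]; positivity⟩
  have h1 : {z | G.Cov L α z} = ⋃ p ∈ Finset.range m, {z | G.chi L z = G.b p + α} := by
    ext z
    simp only [Set.mem_setOf_eq, Set.mem_iUnion, Finset.mem_range, exists_prop]
    constructor
    · rintro ⟨p, hp, h⟩
      refine ⟨p, hp, ?_⟩
      rw [h, add_assoc, add_self2, add_zero]
    · rintro ⟨p, hp, h⟩
      refine ⟨p, hp, ?_⟩
      rw [h, add_assoc, add_self2, add_zero]
  have h2 : ∀ p, ({z | G.chi L z = G.b p + α} : Set (Fin m → ZMod L)).ncard =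
      2 ^ (2 * m * t - a) := fun p => hA.count t _ hL
  obtain ⟨Fs, hFs⟩ : ∃ Fs : ℕ → Finset (Fin m → ZMod L), ∀ p z, z ∈ Fs p ↔
      G.chi L z = G.b p + α := ⟨fun p => Finset.univ.filter fun z => G.chi L z = G.b p + α,
        fun p z => by simp⟩
  have h3 : {z | G.Cov L α z} = (((Finset.range m).biUnion Fs : Finset (Fin m → ZMod L)) :
      Set (Fin m → ZMod L)) := by
    rw [h1]
    ext z
    simp only [Set.mem_iUnion, Finset.mem_range, Set.mem_setOf_eq, exists_prop,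
      Finset.coe_biUnion, Finset.coe_range, Set.mem_Iio, Finset.mem_coe, hFs]
  rw [h3, Set.ncard_coe_finset, Finset.card_biUnion]
  · have h4 : ∀ p ∈ Finset.range m, (Fs p).card = 2 ^ (2 * m * t - a) := by
      intro p _
      rw [← h2 p, ← Set.ncard_coe_finset]
      congr 1
      ext z
      exact hFs p z
    rw [Finset.sum_congr rfl h4, Finset.sum_const, Finset.card_range, smul_eq_mul]
  · intro p hp q hq hpq
    rw [Function.onFun, Finset.disjoint_left]
    intro z hz hz'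
    rw [hFs] at hz hz'
    refine hpq (G.binj p q (Finset.mem_range.1 hp) (Finset.mem_range.1 hq) ?_)
    exact add_right_cancel (hz.symm.trans hz')

/-- the pairs of colours -/
lemma pair (hcyc : StmCyc) (hex : StmEx) (t : ℕ) (ht : 1 ≤ t) (hA : AlgProps G (4 ^ t))
    (hLam : LamProps G (4 ^ t)) (hCol : ColProps G (4 ^ t))
    (hconn : ∀ (α : Fin a → ZMod 2) y z, G.Cov (4 ^ t) α y → G.Cov (4 ^ t) α z →
      (G.gr (4 ^ t) (m - 1) α).Reachable y z) (α : Fin a → ZMod 2) :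
    DecN (IsPk (m * 2 ^ (2 * m * t - a))) 2
      ((G.gr (4 ^ t) (m - 1) α).edgeSet ∪ (G.gr (4 ^ t) (m - 1) (α + G.τ)).edgeSet) := by
  classical
  obtain ⟨L, hLt⟩ : ∃ L, L = 4 ^ t := ⟨_, rfl⟩
  have hL : 4 ≤ L := by
    rw [hLt]
    calc 4 = 4 ^ 1 := by norm_num
      _ ≤ 4 ^ t := Nat.pow_le_pow_right (by norm_num) ht
  have hne : NeZero L := ⟨by omega⟩
  rw [← hLt] at hA hLam hCol hconn ⊢
  have hm := G.hm
  have hr1 := G.hr1
  have hr2 := G.hr2
  obtain ⟨x, hx2, hxc⟩ := hA.surj (α + G.b G.r) 2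
  -- the vertex before `x`
  obtain ⟨y, hy⟩ : ∃ y, y = x - ev m L (G.r - 1) := ⟨_, rfl⟩
  have hyx : y + ev m L (G.r - 1) = x := by rw [hy, sub_add_cancel]
  have hr3 : G.r - 1 < m := by omega
  have hc1 : G.c (G.r - 1) = G.b (G.r - 1) + G.b G.r := by
    unfold GD.c
    rw [if_pos (by omega), Nat.sub_add_cancel hr1]
  have hc2 : G.c (m - 1) = G.b (m - 1) := by
    unfold GD.c
    rw [if_neg (by omega)]
  have hchiy : G.chi L y = α + G.b (G.r - 1) := by
    have h1 := hA.chi_add y (ev m L (G.r - 1))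
    rw [hyx, hxc, hA.chi_ev _ hr3, hc1] at h1
    have h2 : G.chi L y = (α + G.b G.r) + (G.b (G.r - 1) + G.b G.r) := by
      rw [h1, add_assoc, add_self2, add_zero]
    rw [h2]
    have h3 := add_self2 (G.b G.r)
    calc (α + G.b G.r) + (G.b (G.r - 1) + G.b G.r) =
        α + G.b (G.r - 1) + (G.b G.r + G.b G.r) := by abel
      _ = α + G.b (G.r - 1) := by rw [h3, add_zero]
  have hylast : ∀ i : Fin m, (i : ℕ) = m - 1 → y i ≠ 0 ∧ y i ≠ 1 := by
    intro i hi
    have h1 : y i = 2 := by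
      rw [hy, Pi.sub_apply, hx2 i hi]
      have h2 : ev m L (G.r - 1) i = 0 := by
        unfold ev
        rw [if_neg (by omega)]
      rw [h2, sub_zero]
    rw [h1]
    exact ⟨(two_ne hL).1, (two_ne hL).2.1⟩
  have hTy : G.T L (m - 1) y (G.r - 1) = α := by
    unfold GD.T
    rw [hLam.lam_two _ _ _ hylast, hchiy, add_assoc, add_self2, add_zero]
  have hadj1 : (G.gr L (m - 1) α).Adj x y := by
    have h1 := adj_of G L hL (m - 1) y (G.r - 1) hr3
    rw [hTy, hyx] at h1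
    exact h1.symm
  have hrm : G.b G.r + G.b (m - 1) = G.τ := by
    rw [← G.hτr, ← add_assoc, add_self2, zero_add]
  have hTx : G.T L (m - 1) x (m - 1) = α + G.τ := by
    unfold GD.T
    rw [hLam.lam_last _ _ (by omega), hxc, add_assoc, hrm]
  have hadj2 : (G.gr L (m - 1) (α + G.τ)).Adj x (x + ev m L (m - 1)) := by
    have h1 := adj_of G L hL (m - 1) x (m - 1) (by omega)
    rwa [hTx] at h1
  have hncov1 : ¬ G.Cov L (α + G.τ) y := by
    rintro ⟨p, hp, h⟩
    refine G.hτr' p hp ?_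
    rw [h, hchiy]
    calc G.b (G.r - 1) + G.τ = (α + α) + (G.b (G.r - 1) + G.τ) := by rw [add_self2, zero_add]
      _ = α + G.b (G.r - 1) + (α + G.τ) := by abel
  have hncov2 : ¬ G.Cov L α (x + ev m L (m - 1)) := by
    rintro ⟨p, hp, h⟩
    refine G.hτ0 p hp ?_
    rw [h, hA.chi_add, hA.chi_ev _ (by omega), hc2, hxc, ← hrm]
    calc α + G.b G.r + G.b (m - 1) + α = (α + α) + (G.b G.r + G.b (m - 1)) := by abel
      _ = G.b G.r + G.b (m - 1) := by rw [add_self2, zero_add]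
  have hcy : ∀ (β : Fin a → ZMod 2) (u v : Fin m → ZMod L), (G.gr L (m - 1) β).Adj u v →
      ∃ c : ℕ → (Fin m → ZMod L), IsCyc c (m * 2 ^ (2 * m * t - a)) ∧ c 0 = u ∧ c 1 = v ∧
        (∀ y, G.Cov L β y ↔ ∃ j, j < m * 2 ^ (2 * m * t - a) ∧ c j = y) ∧
        (G.gr L (m - 1) β).edgeSet = pE c (m * 2 ^ (2 * m * t - a)) := by
    intro β u v huv
    have h1 := hcyc (Fin m → ZMod L) (G.gr L (m - 1) β) {z | G.Cov L β z}
      (fun y hy => hCol.nb _ β y (by omega) hy) (fun y hy => hCol.nb0 _ β y (by omega) hy)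
      (fun y z hy hz => hconn β y z hy hz) u v huv
    rw [ncard_cov G L t hLt hA β] at h1
    exact h1
  obtain ⟨c, hc, hc0, hc1', hcW, hcE⟩ := hcy α x y hadj1
  obtain ⟨c', hc', hc0', hc1'', hcW', hcE'⟩ := hcy (α + G.τ) x _ hadj2
  have hτne : α ≠ α + G.τ := by
    intro h
    have h1 := congrFun h G.top
    rw [Pi.add_apply, G.hτtop] at h1
    exact one_ne_zero (α := ZMod 2) (by linear_combination -h1)
  rw [hcE, hcE']
  refine hex _ _ c c' hc hc' (by rw [hc0, hc0']) ?_ ?_ ?_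
  · intro j hj h
    rw [hc1''] at h
    exact hncov2 ((hcW _).2 ⟨j, hj, h⟩)
  · intro j hj h
    rw [hc1'] at h
    exact hncov1 ((hcW' _).2 ⟨j, hj, h⟩)
  · rw [← hcE, ← hcE']
    exact edge_disjoint G L hL (m - 1) α (α + G.τ) hτne

end

/-- **Brick PATHS.** -/
theorem paths (hcyc : StmCyc) (hex : StmEx) : StmPaths := by
  classical
  intro m a t G ht hA hLam hCol hconn
  have hL : 4 ≤ 4 ^ t := by
    calc 4 = 4 ^ 1 := by norm_num
      _ ≤ 4 ^ t := Nat.pow_le_pow_right (by norm_num) ht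
  obtain ⟨E, hE⟩ : ∃ E : (Fin a → ZMod 2) → Set (Sym2 (Fin m → ZMod (4 ^ t))),
      E = fun α => (G.gr (4 ^ t) (m - 1) α).edgeSet := ⟨_, rfl⟩
  have hpair : ∀ α, ∃ F0 F1 : Set (Sym2 (Fin m → ZMod (4 ^ t))),
      IsPk (m * 2 ^ (2 * m * t - a)) F0 ∧ IsPk (m * 2 ^ (2 * m * t - a)) F1 ∧ Disjoint F0 F1 ∧
        E α ∪ E (α + G.τ) = F0 ∪ F1 := by
    intro α
    obtain ⟨F, hF1, hF2, hF3⟩ := pair G hcyc hex t ht hA hLam hCol hconn α
    refine ⟨F 0, F 1, hF1 0, hF1 1, hF2 0 1 (by decide), ?_⟩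
    rw [hE]
    simp only
    rw [hF3]
    ext e
    rw [Set.mem_iUnion, Set.mem_union]
    constructor
    · rintro ⟨i, hi⟩
      fin_cases i
      · exact Or.inl hi
      · exact Or.inr hi
    · rintro (h | h)
      · exact ⟨0, h⟩
      · exact ⟨1, h⟩
  choose F0 F1 h0 h1 hd hu using hpair
  have hdisj : ∀ α β, α ≠ β → Disjoint (E α) (E β) := by
    intro α β h
    rw [hE]
    exact edge_disjoint G (4 ^ t) hL (m - 1) α β h
  have hz2 : ∀ x : ZMod 2, x = 0 ∨ x = 1 := by decide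
  obtain ⟨P, hP⟩ : ∃ P : (Fin a → ZMod 2) → Set (Sym2 (Fin m → ZMod (4 ^ t))),
      ∀ β, P β = if β G.top = 0 then F0 β else F1 (β + G.τ) := ⟨_, fun β => rfl⟩
  -- the representative of the pair
  obtain ⟨ρ, hρ⟩ : ∃ ρ : (Fin a → ZMod 2) → (Fin a → ZMod 2),
      ∀ β, ρ β = if β G.top = 0 then β else β + G.τ := ⟨_, fun β => rfl⟩
  have hρtop : ∀ β, ρ β G.top = 0 := by
    intro β
    rw [hρ]
    split_ifs with h
    · exact h
    · rw [Pi.add_apply, G.hτtop, (hz2 _).resolve_left h]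
      decide
  have hPsub : ∀ β, P β ⊆ E (ρ β) ∪ E (ρ β + G.τ) := by
    intro β
    rw [hu, hP, hρ]
    split_ifs
    · exact Set.subset_union_left
    · exact Set.subset_union_right
  have hρd : ∀ β γ, ρ β ≠ ρ γ → Disjoint (E (ρ β) ∪ E (ρ β + G.τ)) (E (ρ γ) ∪ E (ρ γ + G.τ)) := by
    intro β γ h
    have h1 : ρ β ≠ ρ γ + G.τ := by
      intro h2
      have h3 := congrFun h2 G.top
      rw [Pi.add_apply, G.hτtop, hρtop, hρtop] at h3
      exact absurd h3 (by decide)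
    have h2 : ρ β + G.τ ≠ ρ γ := by
      intro h2
      have h3 := congrFun h2 G.top
      rw [Pi.add_apply, G.hτtop, hρtop, hρtop] at h3
      exact absurd h3 (by decide)
    have h3 : ρ β + G.τ ≠ ρ γ + G.τ := fun h3 => h (add_right_cancel h3)
    rw [Set.disjoint_union_left, Set.disjoint_union_right, Set.disjoint_union_right]
    exact ⟨⟨hdisj _ _ h, hdisj _ _ h1⟩, hdisj _ _ h2, hdisj _ _ h3⟩
  have hcard : Fintype.card (Fin a → ZMod 2) = 2 ^ a := by
    rw [Fintype.card_fun, ZMod.card, Fintype.card_fin]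
  obtain ⟨e⟩ : Nonempty (Fin (2 ^ a) ≃ (Fin a → ZMod 2)) :=
    ⟨(Fintype.equivFinOfCardEq hcard).symm⟩
  refine ⟨fun i => P (e i), fun i => ?_, fun i j hij => ?_, ?_⟩
  · show IsPk _ (P (e i))
    rw [hP]
    split_ifs
    · exact h0 _
    · exact h1 _
  · have hne : e i ≠ e j := fun h => hij (e.injective h)
    show Disjoint (P (e i)) (P (e j))
    by_cases h : ρ (e i) = ρ (e j)
    · rw [hP, hP]
      rw [hρ, hρ] at h
      split_ifs at h ⊢ with g1 g2 g2
      · exact absurd h hne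
      · rw [h]
        exact hd _
      · rw [← h]
        exact (hd _).symm
      · exact absurd (add_right_cancel h) hne
    · exact (hρd _ _ h).mono (hPsub _) (hPsub _)
  · rw [torE_eq G (4 ^ t) hL (m - 1)]
    ext x
    rw [Set.mem_iUnion, Set.mem_iUnion]
    constructor
    · rintro ⟨α, hα⟩
      have hα' : x ∈ E α := by rw [hE]; exact hα
      have h2 : x ∈ E (ρ α) ∪ E (ρ α + G.τ) := by
        rw [hρ]
        split_ifs
        · exact Or.inl hα'
        · right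
          rw [add_assoc, add_self2, add_zero]
          exact hα'
      rw [hu] at h2
      rcases h2 with h2 | h2
      · refine ⟨e.symm (ρ α), ?_⟩
        rw [Equiv.apply_symm_apply, hP, if_pos (hρtop α)]
        exact h2
      · refine ⟨e.symm (ρ α + G.τ), ?_⟩
        rw [Equiv.apply_symm_apply, hP, if_neg, add_assoc, add_self2, add_zero]
        · exact h2
        · rw [Pi.add_apply, G.hτtop, hρtop]
          decide
    · rintro ⟨i, hi⟩
      rcases hPsub _ hi with h2 | h2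
      · exact ⟨_, by rw [hE] at h2; exact h2⟩
      · exact ⟨_, by rw [hE] at h2; exact h2⟩

end Pool.Agent.K3h4.Erde
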