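import Mathlib
import Pool.Agent.K3h88.Erde.Stm

/-!
# Recursion for the Hamiltonian decompositions of even cubes (brick R)
-/

set_option autoImplicit false

open Pool.Agent.K3h88.Erde

namespace Pool.Agent.K3h4.Erde

lemma hc_loopless {V : Type} (F : Set (Sym2 V)) (hF : IsHC F) (x : V) : s(x, x) ∉ F := by
  obtain ⟨M, c, ⟨hM, hc, hinj⟩, -, rfl⟩ := hF
  rintro ⟨j, hj, he⟩
  rw [Sym2.eq_iff] at he
  have h1 : c j = c (j + 1) := by
    rcases he with ⟨h1, h2⟩ | ⟨h1, h2⟩
    · rw [← h1, ← h2]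
    · rw [← h1, ← h2]
  by_cases hj' : j + 1 < M
  · have := hinj (Set.mem_Iio.2 hj) (Set.mem_Iio.2 hj') h1
    omega
  · have h2 : j + 1 = M := by omega
    rw [h2, hc] at h1
    have := hinj (Set.mem_Iio.2 hj) (Set.mem_Iio.2 (by omega : 0 < M)) h1
    omega

lemma cube_loopless {ι : Type} [DecidableEq ι] (x : ι → Bool) : s(x, x) ∉ cubeE ι := by
  rintro ⟨y, i, he⟩
  rw [Sym2.eq_iff] at he
  have h1 : y = Function.update y i (!y i) := by
    rcases he with ⟨h1, h2⟩ | ⟨h1, h2⟩
    · exact h1.symm.trans h2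
    · exact h2.symm.trans h1
  have h2 := congrFun h1 i
  rw [Function.update_self] at h2
  cases h : y i <;> rw [h] at h2 <;> simp at h2

lemma box_loopless {V W : Type} {D : Set (Sym2 V)} {E : Set (Sym2 W)}
    (hD : ∀ x, s(x, x) ∉ D) (hE : ∀ x, s(x, x) ∉ E) (x : V × W) : s(x, x) ∉ boxE D E := by
  rintro (⟨u, u', y, h, he⟩ | ⟨u, y, y', h, he⟩)
  · rw [Sym2.eq_iff] at he
    have h1 : u = u' := by
      rcases he with ⟨h1, h2⟩ | ⟨h1, h2⟩
      · have := h1.symm.trans h2
        exact (Prod.mk.inj this).1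
      · have := h2.symm.trans h1
        exact ((Prod.mk.inj this).1).symm ▸ rfl
    rw [h1] at h
    exact hD _ h
  · rw [Sym2.eq_iff] at he
    have h1 : y = y' := by
      rcases he with ⟨h1, h2⟩ | ⟨h1, h2⟩
      · have := h1.symm.trans h2
        exact (Prod.mk.inj this).2
      · have := h2.symm.trans h1
        exact ((Prod.mk.inj this).2).symm ▸ rfl
    rw [h1] at h
    exact hE _ h

lemma decN_one {V : Type} (P : Set (Sym2 V) → Prop) (E : Set (Sym2 V)) (hE : P E) :
    DecN P 1 E := by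
  refine ⟨fun _ => E, fun _ => hE, fun i j hij => ?_, ?_⟩
  · exact absurd (Subsingleton.elim i j) hij
  · ext e
    simp

lemma decN_sub {V : Type} {P : Set (Sym2 V) → Prop} {r : ℕ} {E : Set (Sym2 V)}
    (h : DecN P r E) (x : V) (hP : ∀ F, P F → s(x, x) ∉ F) : s(x, x) ∉ E := by
  obtain ⟨F, hF, -, rfl⟩ := h
  rw [Set.mem_iUnion]
  rintro ⟨i, hi⟩
  exact hP _ (hF i) hi

section

variable (p1a : StmP1a) (p1c : StmP1c)

include p1a p1c in
lemma transfer {V W : Type} {φ : V → W} (hφ : Function.Bijective φ) {s : ℕ} {E : Set (Sym2 V)}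
    (h : DecN IsHC s E) : DecN IsHC s (Sym2.map φ '' E) :=
  p1a V W IsHC IsHC φ s E hφ.1 h fun F hF => p1c V W φ F hφ hF

include p1a p1c in
lemma transfer_cube (p4a : StmP4a) {ι κ : Type} [DecidableEq ι] [DecidableEq κ] (e : ι ≃ κ)
    {s : ℕ} (h : DecN IsHC s (cubeE ι)) : DecN IsHC s (cubeE κ) := by
  rw [p4a ι κ e]
  refine transfer p1a p1c ?_ h
  constructor
  · intro x y hxy
    funext i
    have := congrFun hxy (e i)
    simpa using this
  · intro y
    exact ⟨fun i => y (e i), by funext j; simp⟩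

lemma elim_bij (ι κ : Type) :
    Function.Bijective (fun p : (ι → Bool) × (κ → Bool) => (Sum.elim p.1 p.2 : ι ⊕ κ → Bool)) := by
  constructor
  · rintro ⟨a, b⟩ ⟨a', b'⟩ h
    have h1 : a = a' := by
      funext i
      have := congrFun h (Sum.inl i)
      simpa using this
    have h2 : b = b' := by
      funext i
      have := congrFun h (Sum.inr i)
      simpa using this
    rw [h1, h2]
  · intro f
    refine ⟨(fun i => f (Sum.inl i), fun i => f (Sum.inr i)), ?_⟩
    funext i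
    cases i <;> rfl

lemma card_cube (s : ℕ) : Fintype.card (Fin (2 * s) → Bool) = 4 ^ s := by
  rw [Fintype.card_fun, Fintype.card_bool, Fintype.card_fin, pow_mul]
  norm_num

lemma two : DecN IsHC 1 (cubeE (Fin (2 * 1))) := by
  refine decN_one _ _ ?_
  refine ⟨4, fun j => if j % 4 = 0 then ![false, false] else if j % 4 = 1 then ![true, false] else
    if j % 4 = 2 then ![true, true] else ![false, true], ⟨by norm_num, by decide, ?_⟩, ?_, ?_⟩
  · intro i hi j hj h
    rw [Set.mem_Iio] at hi hj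
    interval_cases i <;> interval_cases j <;> first | rfl | (exfalso; revert h; decide)
  · intro v
    have hv : v = ![v 0, v 1] := by
      funext i
      fin_cases i <;> rfl
    rw [hv]
    cases v 0 <;> cases v 1
    · exact ⟨0, by norm_num, by decide⟩
    · exact ⟨3, by norm_num, by decide⟩
    · exact ⟨1, by norm_num, by decide⟩
    · exact ⟨2, by norm_num, by decide⟩
  · ext e
    constructor
    · rintro ⟨x, i, rfl⟩
      have hx : x = ![x 0, x 1] := by
        funext i
        fin_cases i <;> rfl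
      rw [hx]
      fin_cases i <;> cases x 0 <;> cases x 1
      · exact ⟨0, by norm_num, by decide⟩
      · exact ⟨2, by norm_num, by decide⟩
      · exact ⟨0, by norm_num, by decide⟩
      · exact ⟨2, by norm_num, by decide⟩
      · exact ⟨3, by norm_num, by decide⟩
      · exact ⟨3, by norm_num, by decide⟩
      · exact ⟨1, by norm_num, by decide⟩
      · exact ⟨1, by norm_num, by decide⟩
    · rintro ⟨j, hj, rfl⟩
      interval_cases j
      · exact ⟨![false, false], 0, by decide⟩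
      · exact ⟨![true, false], 1, by decide⟩
      · exact ⟨![true, true], 0, by decide⟩
      · exact ⟨![false, true], 1, by decide⟩

include p1a p1c in
lemma even_step (p3a : StmP3a) (p4a : StmP4a) (p4b : StmP4b) (hK : StmK1) (h : ℕ) (hh : 1 ≤ h)
    (ih : DecN IsHC h (cubeE (Fin (2 * h)))) : DecN IsHC (h * 2) (cubeE (Fin (2 * (h * 2)))) := by
  have h1 : DecN IsHC (h * 2) (boxE (cubeE (Fin (2 * h))) (cubeE (Fin (2 * h)))) :=
    p3a _ _ IsHC IsHC IsHC h 2 _ _ hc_loopless hc_loopless ih ih fun D' E' hD hE =>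
      hK _ _ h h D' E' hh hh (card_cube h) (card_cube h) hD hE
  have h2 : DecN IsHC (h * 2) (cubeE (Fin (2 * h) ⊕ Fin (2 * h))) := by
    rw [p4b]
    exact transfer p1a p1c (elim_bij _ _) h1
  have e : Fin (2 * h) ⊕ Fin (2 * h) ≃ Fin (2 * (h * 2)) :=
    finSumFinEquiv.trans (finCongr (by ring))
  exact transfer_cube p1a p1c p4a e h2

include p1a p1c in
lemma odd_step (p1d : StmP1d) (p1f : StmP1f) (p3a : StmP3a) (p3b : StmP3b) (p3c : StmP3c)
    (p4a : StmP4a) (p4b : StmP4b) (hK : StmK1) (hT : StmT1) (b h t : ℕ) (ht : 1 ≤ t)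
    (hth : t ≤ h) (hhb : h ≤ b) (hbt : b + t = 2 * h)
    (ihb : DecN IsHC b (cubeE (Fin (2 * b)))) (ihh : DecN IsHC h (cubeE (Fin (2 * h)))) :
    DecN IsHC (b + 2 * h) (cubeE (Fin (2 * (b + 2 * h)))) := by
  obtain ⟨b', hb'⟩ : ∃ b', b = t + b' := ⟨b - t, by omega⟩
  obtain ⟨h', hh'⟩ : ∃ h', h = t + h' := ⟨h - t, by omega⟩
  have hb'h' : b' = h' * 2 := by omega
  have ihb1 : DecN IsHC (t + b') (cubeE (Fin (2 * b))) := by rw [← hb']; exact ihb
  have ihh1 : DecN IsHC (t + h') (cubeE (Fin (2 * h))) := by rw [← hh']; exact ihh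
  obtain ⟨D, D', hD, hDD, hD1, hD2⟩ := p1f _ _ _ _ _ ihb1
  obtain ⟨C, C', hC, hCC, hC1, hC2⟩ := p1f _ _ _ _ _ ihh1
  have hDl : ∀ x, s(x, x) ∉ D ∪ D' := by
    intro x
    rw [← hD]
    exact cube_loopless x
  have hCl : ∀ x, s(x, x) ∉ C ∪ C' := by
    intro x
    rw [← hC]
    exact cube_loopless x
  obtain ⟨g1, g2⟩ := p3b _ _ C C' C C' hCl hCl hCC hCC
  obtain ⟨k1, k2⟩ := p3b _ _ D D' (boxE C C) (boxE C' C') hDl (by
    intro x
    rw [← g1]
    exact box_loopless hCl hCl x) hDD g2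
  -- the second part
  have hG2 : DecN IsHC b' (boxE C' C') := by
    rw [hb'h']
    exact p3a _ _ IsHC IsHC IsHC h' 2 _ _ hc_loopless hc_loopless hC2 hC2 fun X Y hX hY =>
      hK _ _ h h X Y (by omega) (by omega) (card_cube h) (card_cube h) hX hY
  have hcard2 : Fintype.card ((Fin (2 * h) → Bool) × (Fin (2 * h) → Bool)) = 4 ^ (2 * h) := by
    rw [Fintype.card_prod, card_cube, two_mul, pow_add]
  have hS2 : DecN IsHC (b' * 2) (boxE D' (boxE C' C')) :=
    p3a _ _ IsHC IsHC IsHC b' 2 _ _ hc_loopless hc_loopless hD2 hG2 fun X Y hX hY =>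
      hK _ _ b (2 * h) X Y (by omega) (by omega) (card_cube b) hcard2 hX hY
  -- the first part
  have hG1 : DecN (fun F => ∃ X Y, IsHC X ∧ IsHC Y ∧ F = boxE X Y) (t * 1) (boxE C C) :=
    p3a _ _ IsHC IsHC _ t 1 _ _ hc_loopless hc_loopless hC1 hC1 fun X Y hX hY =>
      decN_one _ _ ⟨X, Y, hX, hY, rfl⟩
  rw [mul_one] at hG1
  have hS1 : DecN IsHC (t * 3) (boxE D (boxE C C)) :=
    p3a _ _ IsHC _ IsHC t 3 _ _ hc_loopless (by
      rintro F ⟨X, Y, hX, hY, rfl⟩ x
      exact box_loopless (hc_loopless X hX) (hc_loopless Y hY) x) hD1 hG1 (by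
      rintro X F hX ⟨Y, Z, hY, hZ, rfl⟩
      exact hT _ _ _ b h X Y Z (by omega) hhb (card_cube b) (card_cube h) (card_cube h) hX hY hZ)
  have hS : DecN IsHC (t * 3 + b' * 2)
      (boxE (cubeE (Fin (2 * b))) (boxE (cubeE (Fin (2 * h))) (cubeE (Fin (2 * h))))) := by
    have e1 : boxE (cubeE (Fin (2 * h))) (cubeE (Fin (2 * h))) = boxE C C ∪ boxE C' C' := by
      rw [← g1, ← hC]
    rw [e1, hD, k1]
    exact p1d _ _ _ _ _ _ k2 hS1 hS2
  have hnum : t * 3 + b' * 2 = b + 2 * h := by omega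
  rw [hnum] at hS
  -- transport
  have h2 : DecN IsHC (b + 2 * h) (cubeE (Fin (2 * b) ⊕ (Fin (2 * h) ⊕ Fin (2 * h)))) := by
    rw [p4b]
    refine transfer p1a p1c (elim_bij _ _) ?_
    rw [p4b (Fin (2 * h)) (Fin (2 * h))]
    have e2 : cubeE (Fin (2 * b)) = Sym2.map id '' cubeE (Fin (2 * b)) := by
      rw [Sym2.map_id, Set.image_id]
    have e3 := p3c _ _ _ _ id
      (fun p : (Fin (2 * h) → Bool) × (Fin (2 * h) → Bool) => Sum.elim p.1 p.2)
      (cubeE (Fin (2 * b))) (boxE (cubeE (Fin (2 * h))) (cubeE (Fin (2 * h))))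
      Function.bijective_id (elim_bij _ _)
    rw [← e2] at e3
    rw [e3]
    exact transfer p1a p1c (Function.bijective_id.prodMap (elim_bij _ _)) hS
  have e : Fin (2 * b) ⊕ (Fin (2 * h) ⊕ Fin (2 * h)) ≃ Fin (2 * (b + 2 * h)) :=
    ((Equiv.sumCongr (Equiv.refl _) finSumFinEquiv).trans finSumFinEquiv).trans
      (finCongr (by ring))
  exact transfer_cube p1a p1c p4a e h2

/-- **Brick R.** Hamiltonian decompositions of all even cubes -/
theorem hcd (hK : StmK1) (hT : StmT1) (hH : StmH5) (p1a : StmP1a) (p1c : StmP1c) (p1d : StmP1d)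
    (p1f : StmP1f) (p3a : StmP3a) (p3b : StmP3b) (p3c : StmP3c) (p4a : StmP4a)
    (p4b : StmP4b) : StmHCD := by
  intro s
  induction s using Nat.strong_induction_on with
  | _ s ih =>
    intro hs
    by_cases h1 : s = 1
    · subst h1
      exact two
    by_cases h5 : s = 5
    · subst h5
      exact hH
    rcases Nat.even_or_odd' s with ⟨h, rfl | rfl⟩
    · have := even_step p1a p1c p3a p4a p4b hK h (by omega) (ih h (by omega) (by omega))
      rwa [mul_comm h 2] at this
    · rcases Nat.even_or_odd' h with ⟨k, rfl | rfl⟩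
      · -- s = 4 k + 1, k ≥ 2
        have h6 := odd_step p1a p1c p1d p1f p3a p3b p3c p4a p4b hK hT (2 * k - 1) (k + 1) 3
          (by norm_num) (by omega) (by omega) (by omega) (ih _ (by omega) (by omega))
          (ih _ (by omega) (by omega))
        have h7 : 2 * k - 1 + 2 * (k + 1) = 2 * (2 * k) + 1 := by omega
        rwa [h7] at h6
      · -- s = 4 k + 3
        have h6 := odd_step p1a p1c p1d p1f p3a p3b p3c p4a p4b hK hT (2 * k + 1) (k + 1) 1
          (by norm_num) (by omega) (by omega) (by omega) (ih _ (by omega) (by omega))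
          (ih _ (by omega) (by omega))
        have h7 : 2 * k + 1 + 2 * (k + 1) = 2 * (2 * k + 1) + 1 := by omega
        rwa [h7] at h6

end

end Pool.Agent.K3h4.Erde
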